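import Pool.Agent.H27.GapMain

set_option autoImplicit false

namespace Pool.Agent.Results.MP_2920eb_co.Seven

open Pool.Agent.H27.Gap

theorem result :
    (∀ (P L : Type) [Fintype P] [Fintype L] [Membership P L] [Configuration.ProjectivePlane P L],
      Configuration.ProjectivePlane.order P L ≠ 7 - 1) ∧
    ¬((∃ n G, Extreme (RegFam 7) n G) ∧ ∀ n G, Extreme (RegFam 7) n G → IsDesignGraph 7 n G) ∧
    ¬((∃ n G, Extreme (MinFam 7) n G) ∧ ∀ n G, Extreme (MinFam 7) n G → IsDesignGraph 7 n G) :=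
  ⟨no_plane, main⟩

end Pool.Agent.Results.MP_2920eb_co.Seven
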